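import Pool.Agent.Helper99.EXC.GoalsS

open Finset

namespace Pool.Agent.Helper79.EXC

open Pool.Agent.Helper99.EXC Pool.Agent.Helper99.ERW

lemma nm_shift (x : Site 2) (e : Dir 2) : nm x ≤ nm (x + vec e) + 1 := by
  have h0 := abs_vec_le e 0
  have h1 := abs_vec_le e 1
  have key : ∀ l : Fin 2, |(x l : ℝ)| ≤ |((x + vec e) l : ℝ)| + 1 := by
    intro l
    have hv : |vec e l| ≤ 1 := abs_vec_le e l
    have hv' : |((vec e l : ℤ) : ℝ)| ≤ 1 := by exact_mod_cast hv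
    have e1 : (x l : ℝ) = ((x + vec e) l : ℝ) - ((vec e l : ℤ) : ℝ) := by
      rw [Pi.add_apply]; push_cast; ring
    rw [e1]
    exact (abs_sub _ _).trans (by linarith)
  unfold nm
  refine max_le ?_ ?_
  · exact (key 0).trans (by linarith [le_max_left |((x + vec e) 0 : ℝ)| |((x + vec e) 1 : ℝ)|])
  · exact (key 1).trans (by linarith [le_max_right |((x + vec e) 0 : ℝ)| |((x + vec e) 1 : ℝ)|])

lemma nm_of_not_mem {m : ℕ} {x : Site 2} (h : x ∉ box 2 m) : (m : ℝ) ≤ nm x := by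
  rw [mem_box] at h
  push Not at h
  obtain ⟨l, hl⟩ := h
  have h2 : (m : ℝ) ≤ |(x l : ℝ)| := by exact_mod_cast hl.le
  unfold nm
  fin_cases l
  · exact h2.trans (le_max_left _ _)
  · exact h2.trans (le_max_right _ _)

lemma mem_of_nm_lt {m : ℕ} {x : Site 2} (h : nm x < m) : x ∈ box 2 m := by
  by_contra h1
  exact absurd (nm_of_not_mem h1) (not_le.mpr h)

lemma sum_shift (u : Site 2 → ℝ) (m : ℕ) (hu : ∀ x : Site 2, (m : ℝ) - 3 ≤ nm x → u x = 0)
    (e : Dir 2) : ∑ x ∈ box 2 m, u (x + vec e) = ∑ x ∈ box 2 m, u x := by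
  have h1 : ∑ᶠ x, u (x + vec e) = ∑ x ∈ box 2 m, u (x + vec e) := by
    refine finsum_eq_sum_of_support_subset _ fun x hx => ?_
    rw [Function.mem_support] at hx
    have h2 : nm (x + vec e) < (m : ℝ) - 3 := by
      by_contra h3
      exact hx (hu _ (not_lt.mp h3))
    have h4 := nm_shift x e
    exact Finset.mem_coe.mpr (mem_of_nm_lt (by linarith))
  have h2 : ∑ᶠ x, u x = ∑ x ∈ box 2 m, u x := by
    refine finsum_eq_sum_of_support_subset _ fun x hx => ?_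
    rw [Function.mem_support] at hx
    have h2 : nm x < (m : ℝ) - 3 := by
      by_contra h3
      exact hx (hu _ (not_lt.mp h3))
    exact Finset.mem_coe.mpr (mem_of_nm_lt (by linarith))
  have h3 : ∑ᶠ x, u (x + vec e) = ∑ᶠ x, u x :=
    finsum_comp_equiv (f := u) (Equiv.addRight (vec e))
  rw [← h1, h3, h2]

lemma sum_secondDiff (u : Site 2 → ℝ) (m : ℕ)
    (hu : ∀ x : Site 2, (m : ℝ) - 3 ≤ nm x → u x = 0) (l : Fin 2) :
    ∑ x ∈ box 2 m, secondDiff u l x = 0 := by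
  unfold secondDiff
  rw [Finset.sum_sub_distrib, Finset.sum_add_distrib, sum_shift u m hu, sum_shift u m hu,
    ← Finset.mul_sum]
  ring

/-- The choice of the first box parameter. -/
lemma b_choice (a : ℝ) (φ : Site 2 → ℝ) (κ C0 : ℝ) (hK : Ker a φ κ C0) :
    ∃ b0 : ℕ, ∀ b, b0 ≤ b → ∀ (k : ℕ) (x : Site 2), ((b * 2 ^ k : ℕ) : ℝ) - 3 ≤ nm x →
      κ * (k + 1) + 1 ≤ φ x := by
  have hκ := hK.kpos
  obtain ⟨b0, hb0⟩ := exists_nat_ge (max 4 (2 * (2 : ℝ) ^ ((κ + 1 + C0) / κ)))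
  refine ⟨b0, fun b hb k x hx => ?_⟩
  have hbR : (b0 : ℝ) ≤ b := by exact_mod_cast hb
  have hb4 : (4 : ℝ) ≤ b := (le_max_left _ _).trans (hb0.trans hbR)
  have hbP : 2 * (2 : ℝ) ^ ((κ + 1 + C0) / κ) ≤ b := (le_max_right _ _).trans (hb0.trans hbR)
  have h2k : (1 : ℝ) ≤ 2 ^ k := one_le_pow₀ (by norm_num)
  push_cast at hx
  have h1 : (b : ℝ) / 2 * 2 ^ k ≤ 1 + nm x := by
    nlinarith
  have h2 : (2 : ℝ) ^ ((κ + 1 + C0) / κ + k) ≤ 1 + nm x := by
    rw [Real.rpow_add (by norm_num), Real.rpow_natCast]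
    refine le_trans ?_ h1
    refine mul_le_mul_of_nonneg_right ?_ (by positivity)
    linarith
  have h3 : (κ + 1 + C0) / κ + k ≤ Real.logb 2 (1 + nm x) := by
    have hpos : (0 : ℝ) < 1 + nm x := lt_of_lt_of_le (by positivity) h2
    rw [Real.le_logb_iff_rpow_le (by norm_num) hpos]
    exact h2
  have h4 := (abs_le.mp (hK.log x)).1
  have h5 : κ * ((κ + 1 + C0) / κ + k) ≤ κ * Real.logb 2 (1 + nm x) :=
    mul_le_mul_of_nonneg_left h3 hκ.le
  have h6 : κ * ((κ + 1 + C0) / κ + k) = κ + 1 + C0 + κ * k := by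
    field_simp
  linarith

lemma hk_eq (Φ : ℕ → Site 2 → ℝ) (k : ℕ) (x : Site 2) :
    hk Φ k x = (secondDiff (fun y => Φ k y - Φ (k + 1) y) 0 x -
      secondDiff (fun y => Φ k y - Φ (k + 1) y) 1 x) / 2 := by
  unfold hk Df secondDiff
  ring

theorem SG (hFFP : FFP_stmt) (hSA : SA_stmt) (hSE : SE_stmt) : SG_stmt := by
  intro a φ κ C0 hK
  obtain ⟨b1, hb1⟩ := b_choice a φ κ C0 hK
  obtain ⟨b2, hb2⟩ := hSE a φ κ C0 hK
  have hκ := hK.kpos
  refine ⟨max b1 b2, fun b hb => ?_⟩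
  have hbb1 := hb1 b ((le_max_left _ _).trans hb)
  obtain ⟨C, k1, hC⟩ := hb2 b ((le_max_right _ _).trans hb)
  have hFF : ∀ u, 1 ≤ u → FF u = u := hFFP.2.2.1
  have hu : ∀ (k : ℕ) (x : Site 2), ((b * 2 ^ k : ℕ) : ℝ) - 3 ≤ nm x →
      Phi κ φ k x - Phi κ φ (k + 1) x = 0 := by
    intro k x hx
    have h1 := hbb1 k x hx
    unfold Phi
    rw [hFF (φ x - κ * k) (by nlinarith), hFF (φ x - κ * ((k + 1 : ℕ) : ℝ)) (by push_cast; linarith)]
    ring
  refine ⟨2 * |C|, k1, ?_, ?_, ?_⟩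
  · intro k _ x hx
    have hx' : ((b * 2 ^ k : ℕ) : ℝ) ≤ nm x := nm_of_not_mem hx
    have hs : ∀ e : Dir 2, Phi κ φ k (x + vec e) - Phi κ φ (k + 1) (x + vec e) = 0 := by
      intro e
      have := nm_shift x e
      exact hu k _ (by linarith)
    have h0 := hu k x (by linarith)
    rw [hk_eq]
    unfold secondDiff
    simp only [hs, h0]
    ring
  · intro k hk' x
    have h1 := (hC k hk' x).1
    have h2 := (hC (k + 1) (by omega) x).1
    have hC0 : C ≤ |C| := le_abs_self C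
    have h4 : (0 : ℝ) < 4 ^ k := by positivity
    have h5 : C / 4 ^ k ≤ |C| / 4 ^ k := div_le_div_of_nonneg_right hC0 h4.le
    have h6 : C / 4 ^ (k + 1) ≤ |C| / 4 ^ k := by
      refine (div_le_div_of_nonneg_right hC0 (by positivity)).trans ?_
      refine div_le_div_of_nonneg_left (abs_nonneg C) h4 ?_
      exact pow_le_pow_right₀ (by norm_num) (by omega)
    unfold hk
    have h7 := abs_sub (Df (Phi κ φ k) x) (Df (Phi κ φ (k + 1)) x)
    have h8 : 2 * |C| / 4 ^ k = |C| / 4 ^ k + |C| / 4 ^ k := by ring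
    rw [h8]
    linarith
  · intro k _
    have h1 : ∀ x ∈ Bx b k, hk (Phi κ φ) k x =
        secondDiff (fun y => Phi κ φ k y - Phi κ φ (k + 1) y) 0 x / 2 -
        secondDiff (fun y => Phi κ φ k y - Phi κ φ (k + 1) y) 1 x / 2 := by
      intro x _
      rw [hk_eq]; ring
    rw [Finset.sum_congr rfl h1, Finset.sum_sub_distrib, ← Finset.sum_div, ← Finset.sum_div]
    unfold Bx
    rw [sum_secondDiff _ _ (hu k), sum_secondDiff _ _ (hu k)]
    ring

end Pool.Agent.Helper79.EXC
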